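import Mathlib
import Pool.Agent.H62c.Final

set_option autoImplicit false

/-!
# The exterior Cauchy transform of a generic cubic oval is not algebraic

Definitions used by the statement (file `Pool/Agent/H62c/Defs.lean`):
`cubic c` is the real polynomial in `x, y` of degree at most three with coefficient vector `c`,
`IsOval c Γ` says that `Γ` is a compact connected component of its real zero set,
`Encloses Γ Ω` says that `Ω` is a bounded connected component of the complement of `Γ`, and
`AlgebraicCT Ω` says that `Q(z, C_Ω(z)) = 0` for some nonzero `Q` in two variables and all `z` in
the unbounded component of the complement of the closure of `Ω`.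

Idea of the proof. Write the cubic as `a (s^3 + p(z) s + q(z))` with `s = conj z + b(z)`. Stokes
gives a first order system over the rational functions for the series `f, g` of the moments of `1`
and `s`. If `f` is algebraic, the trace gives a rational solution of the inhomogeneous system, which
has no poles, and then a certain integral over `Ω` is the residue at infinity of a regular
differential, hence zero. On the other hand this integral is the derivative of the area with respect
to the level, and it does not vanish.
-/

namespace Pool.Agent.Results.MP_076080_ag.GenericCubicOval

open Pool.Agent.H62c

/-- There is a nonzero polynomial `D` in the ten coefficients such that for every real cubic with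
`D ≠ 0` and for every bounded domain `Ω` enclosed by a compact oval of it, the exterior Cauchy
transform of `Ω` is not algebraic. -/
theorem result : ∃ D : MvPolynomial (Fin 10) ℝ, D ≠ 0 ∧
    ∀ c : Fin 10 → ℝ, MvPolynomial.eval c D ≠ 0 →
      ∀ Γ Ω : Set ℂ, IsOval c Γ → Encloses Γ Ω → ¬ AlgebraicCT Ω := by
  obtain ⟨D, hD, h⟩ := exists_D
  exact ⟨D, hD, fun c hc Γ Ω hΓ hΩ => not_algebraic (h c hc) hΓ hΩ⟩

end Pool.Agent.Results.MP_076080_ag.GenericCubicOval
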